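import Pool.Agent.SHA.StmtsB

/-!
# Squad SHA, row B_DSG: from a system to a design
-/

set_option autoImplicit false

namespace Pool.Agent.SHA.H39

open Pool.Agent.Helper18_Helly

theorem dsg (hLD : LD1Stmt.{0}) : DSGStmt := by
  classical
  rintro a q N ρ hq hqN ⟨ι, κ, _, _, R, m, y, hcard, hR, hm, hy, hcol, hrow, hsum⟩ hle
  have ha : 1 ≤ a := by
    by_contra h0
    have h1 : a = 0 := by omega
    rw [h1] at hcard
    have h2 : IsEmpty κ := Fintype.card_eq_zero_iff.1 hcard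
    rw [Finset.univ_eq_empty, Finset.sum_empty] at hsum
    rw [← hsum, mul_zero] at hle
    have h3 : (1 : ℝ) ≤ N := by exact_mod_cast (hq.trans hqN)
    have h4 : (0 : ℝ) ≤ a := Nat.cast_nonneg a
    linarith
  obtain ⟨K, hK1, hK⟩ : ∃ K : ℕ, 1 ≤ K ∧ ∀ i, (q : ℝ) * m i ≤ K := by
    refine ⟨⌈∑ i, (q : ℝ) * m i⌉₊ + 1, by omega, fun i => ?_⟩
    have h1 : (q : ℝ) * m i ≤ ∑ i, (q : ℝ) * m i :=
      Finset.single_le_sum (f := fun i => (q : ℝ) * m i)
        (fun i _ => mul_nonneg (Nat.cast_nonneg _) (hm i)) (Finset.mem_univ i)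
    have h2 := Nat.le_ceil (∑ i, (q : ℝ) * m i)
    push_cast
    linarith
  have hK0 : (0 : ℝ) < K := by exact_mod_cast hK1
  obtain ⟨O, hO⟩ : ∃ O : κ → Set (ι × Fin K), O = fun j => {u | R u.1 j = 1} := ⟨_, rfl⟩
  have hOm : ∀ j u, u ∈ O j ↔ R u.1 j = 1 := by
    intro j u
    rw [hO]
    exact Iff.rfl
  have hload : ∀ j, ∑ f ∈ (Finset.univ : Finset (ι × Fin K)).filter (fun f => f ∈ O j),
      (q : ℝ) * m f.1 / K = q := by
    intro j
    have h1 : ∀ i, ∑ l : Fin K, (if (i, l) ∈ O j then (q : ℝ) * m i / K else 0) =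
        q * (m i * R i j) := by
      intro i
      rcases hR i j with h | h
      · have h2 : ∀ l : Fin K, (if (i, l) ∈ O j then (q : ℝ) * m i / K else 0) = 0 := by
          intro l
          refine if_neg fun h' => ?_
          rw [hOm, h] at h'
          norm_num at h'
        rw [Finset.sum_congr rfl fun l _ => h2 l, Finset.sum_const_zero, h, mul_zero, mul_zero]
      · have h2 : ∀ l : Fin K, (if (i, l) ∈ O j then (q : ℝ) * m i / K else 0) =
            (q : ℝ) * m i / K := fun l => if_pos ((hOm _ _).2 h)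
        rw [Finset.sum_congr rfl fun l _ => h2 l, Finset.sum_const, Finset.card_univ,
          Fintype.card_fin, nsmul_eq_mul, h, mul_one]
        field_simp
    rw [Finset.sum_filter, Fintype.sum_prod_type]
    refine (Finset.sum_congr rfl fun i _ => h1 i).trans ?_
    rw [← Finset.mul_sum, hcol, mul_one]
  have htot : ∑ f ∈ (Finset.univ : Finset (ι × Fin K)), (q : ℝ) * m f.1 / K = q * ρ := by
    have h1 : ∀ i, ∑ l : Fin K, (q : ℝ) * m i / K = q * m i := by
      intro i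
      rw [Finset.sum_const, Finset.card_univ, Fintype.card_fin, nsmul_eq_mul]
      field_simp
    rw [Fintype.sum_prod_type]
    refine (Finset.sum_congr rfl fun i _ => h1 i).trans ?_
    rw [← Finset.mul_sum, total_mass hcol hrow, hsum]
  obtain ⟨T, -, hTO, hTc⟩ := hLD (ι × Fin K) Finset.univ (Finset.univ.image O)
    (fun f => (q : ℝ) * m f.1 / K) q
    (fun f _ => ⟨div_nonneg (mul_nonneg (Nat.cast_nonneg _) (hm _)) hK0.le,
      (div_le_one hK0).2 (hK _)⟩)
    (fun P hP => by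
      obtain ⟨j, -, rfl⟩ := Finset.mem_image.1 hP
      exact (hload j).le)
  have hTN : N ≤ T.card := by
    have h1 : ((Finset.univ.image O).card : ℝ) ≤ a := by
      have : (Finset.univ.image O).card ≤ a := by
        rw [← hcard]
        exact Finset.card_image_le
      exact_mod_cast this
    rw [htot] at hTc
    have h2 : (N : ℝ) ≤ T.card := by linarith
    exact_mod_cast h2
  obtain ⟨T', hT'T, hT'c⟩ := Finset.exists_subset_card_eq hTN
  have e' : Fin N ≃ T' := (T'.equivFinOfCardEq hT'c).symm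
  have e : κ ≃ Fin a := Fintype.equivFinOfCardEq hcard
  obtain ⟨I0, hI0⟩ : ∃ I0 : ℕ → Finset ℕ, ∀ j t, t ∈ I0 j ↔
      ∃ (ht : t < N) (hj : j < a), R ((e' ⟨t, ht⟩ : T') : ι × Fin K).1 (e.symm ⟨j, hj⟩) = 1 := by
    refine ⟨fun j => (Finset.range N).filter (fun t => ∃ (ht : t < N) (hj : j < a),
      R ((e' ⟨t, ht⟩ : T') : ι × Fin K).1 (e.symm ⟨j, hj⟩) = 1), fun j t => ?_⟩
    rw [Finset.mem_filter, Finset.mem_range]
    exact ⟨fun h => h.2, fun h => ⟨h.1, h⟩⟩
  have hI0c : ∀ j, j < a → (I0 j).card ≤ q := by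
    intro j hj
    have h1 := hTO (O (e.symm ⟨j, hj⟩)) (Finset.mem_image_of_mem _ (Finset.mem_univ _))
    refine le_trans ?_ h1
    refine Finset.card_le_card_of_injOn
      (fun t => if ht : t < N then ((e' ⟨t, ht⟩ : T') : ι × Fin K) else
        ((e' ⟨0, by omega⟩ : T') : ι × Fin K)) ?_ ?_
    · intro t ht
      obtain ⟨ht', _, h3⟩ := (hI0 j t).1 ht
      have h4 : (if ht : t < N then ((e' ⟨t, ht⟩ : T') : ι × Fin K) else
        ((e' ⟨0, by omega⟩ : T') : ι × Fin K)) = ((e' ⟨t, ht'⟩ : T') : ι × Fin K) := dif_pos ht'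
      rw [Finset.mem_coe, Finset.mem_filter]
      beta_reduce
      rw [h4]
      exact ⟨hT'T (e' ⟨t, ht'⟩).2, (hOm _ _).2 h3⟩
    · intro t ht t' ht' h
      obtain ⟨h2, -, -⟩ := (hI0 j t).1 ht
      obtain ⟨h2', -, -⟩ := (hI0 j t').1 ht'
      beta_reduce at h
      rw [dif_pos h2, dif_pos h2'] at h
      have h5 := e'.injective (Subtype.ext h)
      exact congrArg Fin.val h5
  obtain ⟨J, hJ1, hJ2, hJ3⟩ := Finset.exists_subsuperset_card_eq
    (s := I0 0) (t := Finset.range N) (n := q)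
    (fun t ht => Finset.mem_range.2 ((hI0 0 t).1 ht).1) (hI0c 0 ha)
    (by rw [Finset.card_range]; exact hqN)
  obtain ⟨I, hI⟩ : ∃ I : ℕ → Finset ℕ, I = fun j => if j = 0 then J else I0 j := ⟨_, rfl⟩
  have hI00 : I 0 = J := by rw [hI]; exact if_pos rfl
  have hIne : ∀ j, j ≠ 0 → I j = I0 j := by
    intro j hj
    rw [hI]
    exact if_neg hj
  have hsub : ∀ j, I0 j ⊆ I j := by
    intro j
    by_cases hj : j = 0
    · rw [hj, hI00]
      exact hJ1
    · rw [hIne j hj]
  obtain ⟨w, hw⟩ : ∃ w : ℕ → ℝ, ∀ j, w j = if hj : j < a then y (e.symm ⟨j, hj⟩) else 0 :=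
    ⟨fun j => if hj : j < a then y (e.symm ⟨j, hj⟩) else 0, fun j => rfl⟩
  have hw0 : ∀ j, 0 ≤ w j := by
    intro j
    rw [hw]
    split_ifs with hj
    · exact hy _
    · exact le_rfl
  have hwf : ∀ j : Fin a, w j = y (e.symm j) := by
    intro j
    rw [hw, dif_pos j.2]
  refine ⟨I, w, ha, ?_, ?_, ?_, hw0, ?_, ?_⟩
  · intro j _ t ht
    by_cases hj0 : j = 0
    · rw [hj0, hI00] at ht
      exact Finset.mem_range.1 (hJ2 ht)
    · rw [hIne j hj0] at ht
      exact ((hI0 j t).1 ht).1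
  · intro j hj
    by_cases hj0 : j = 0
    · rw [hj0, hI00, hJ3]
    · rw [hIne j hj0]
      exact hI0c j hj
  · rw [hI00, hJ3]
  · rw [← hsum, Finset.sum_range]
    rw [Finset.sum_congr rfl fun j _ => hwf j]
    exact Equiv.sum_comp e.symm y
  · intro t ht
    have h1 : ∑ j ∈ (Finset.range a).filter (fun j => t ∈ I0 j), w j = 1 := by
      rw [Finset.sum_filter, Finset.sum_range, ← hrow ((e' ⟨t, ht⟩ : T') : ι × Fin K).1,
        ← Equiv.sum_comp e.symm]
      refine Finset.sum_congr rfl fun j _ => ?_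
      have h2 : t ∈ I0 j ↔ R ((e' ⟨t, ht⟩ : T') : ι × Fin K).1 (e.symm j) = 1 := by
        rw [hI0]
        exact ⟨fun ⟨_, _, h⟩ => h, fun h => ⟨ht, j.2, h⟩⟩
      rw [hwf j]
      rcases hR ((e' ⟨t, ht⟩ : T') : ι × Fin K).1 (e.symm j) with h | h
      · rw [if_neg (fun h' => by rw [h2, h] at h'; norm_num at h'), h, zero_mul]
      · rw [if_pos (h2.2 h), h, one_mul]
    rw [← h1]
    refine Finset.sum_le_sum_of_subset_of_nonneg ?_ fun j _ _ => hw0 j
    intro j hj
    rw [Finset.mem_filter] at hj ⊢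
    exact ⟨hj.1, hsub j hj.2⟩

end Pool.Agent.SHA.H39
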